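import Mathlib
import Pool.Agent.Lib.P28cd.FinU
import Pool.Agent.Lib.P28ng.FinC

/-!
# Constant depth circuits for s-t connectivity by short walks

For every depth `d` the least number of gates of circuits (AND and OR gates of arbitrary fan-in,
negations free, non-uniform) which decide whether there is a walk from `s` to `t` with at most `k`
arcs is `n ^ Θ(k ^ (1 / ⌊d / 2⌋))`, for all `k` up to `(log n) ^ ⌊d / 2⌋`.  For all `k` up to
`n ^ c` it is at least `n ^ Ω(k ^ (1 / (d - 2)))`, `d ≥ 3`, which is tight for `d = 3, 4`.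
-/

set_option autoImplicit false

namespace Pool.Agent.Results.MP_e46137_lc.ConstantDepth

/-- a digraph on `n` vertices: `E v w = true` iff there is an arc from `v` to `w` -/
abbrev Digraph (n : ℕ) : Type := Fin n → Fin n → Bool

/-- `E` has a walk from `s` to `t` with at most `k` arcs -/
def Walk {n : ℕ} (E : Digraph n) (k : ℕ) (s t : Fin n) : Prop :=
  ∃ j ≤ k, ∃ p : ℕ → Fin n, p 0 = s ∧ p j = t ∧ ∀ i < j, E (p i) (p (i + 1)) = true

/-- the functions which may be wired into a gate of level `ℓ`: an arc, the negation of an arc,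
a gate of smaller level, the negation of a gate of smaller level -/
def IsInput {n S : ℕ} (level : Fin S → ℕ) (gate : Fin S → Digraph n → Bool) (ℓ : ℕ)
    (h : Digraph n → Bool) : Prop :=
  (∃ v w, (h = fun E => E v w) ∨ h = fun E => !E v w) ∨
    ∃ g, level g < ℓ ∧ (h = gate g ∨ h = fun E => !gate g E)

/-- `f` is computed by a circuit of depth `d` with `S` gates: every gate has a level in
`0, .., d - 1` and is the AND or the OR of a set of inputs (arbitrary fan-in), `f` is the value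
of one of the gates -/
def Computes {n : ℕ} (d S : ℕ) (f : Digraph n → Bool) : Prop :=
  ∃ (level : Fin S → ℕ) (gate : Fin S → Digraph n → Bool) (out : Fin S),
    (∀ g, level g < d) ∧
    (∀ g, ∃ T : Set (Digraph n → Bool), (∀ h ∈ T, IsInput level gate (level g) h) ∧
      ((∀ E, gate g E = true ↔ ∀ h ∈ T, h E = true) ∨
        (∀ E, gate g E = true ↔ ∃ h ∈ T, h E = true))) ∧
    f = gate out

/-- `f` accepts every undirected graph (loopless symmetric `E`) in which the distance of `s` and `t` is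
at most `k` and rejects every undirected graph in which `s` and `t` are not connected -/
def Separates {n : ℕ} (k : ℕ) (s t : Fin n) (f : Digraph n → Bool) : Prop :=
  ∀ E, (∀ v, E v v = false) → (∀ v w, E v w = E w v) →
    (Walk E k s t → f E = true) ∧ ((∀ j, ¬ Walk E j s t) → f E = false)

/-- `f` decides for all digraphs whether there is a walk from `s` to `t` with at most `k` arcs -/
def Decides {n : ℕ} (k : ℕ) (s t : Fin n) (f : Digraph n → Bool) : Prop :=
  ∀ E, f E = true ↔ Walk E k s t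

theorem Computes.circ {n d d' S : ℕ} {f : Digraph n → Bool} (hd : d ≤ d') (h : Computes d S f) :
    P28cd.Circ (P28cd.Lits n) d' S f := by
  obtain ⟨level, gate, out, h1, h2, h3⟩ := h
  refine ⟨level, gate, out, fun g => lt_of_lt_of_le (h1 g) hd, ?_, h3⟩
  intro g
  obtain ⟨T, hT, hg⟩ := h2 g
  exact ⟨T, fun h hh => hT h hh, hg⟩

theorem computes_of_circ {n d d' S : ℕ} {f : Digraph n → Bool} (hd : d ≤ d')
    (h : P28cd.Circ (P28cd.Lits n) d S f) : Computes d' S f := by
  obtain ⟨level, gate, out, h1, h2, h3⟩ := h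
  refine ⟨level, gate, out, fun g => lt_of_lt_of_le (h1 g) hd, ?_, h3⟩
  intro g
  obtain ⟨T, hT, hg⟩ := h2 g
  exact ⟨T, fun h hh => hT hh, hg⟩

/-- **Theorem.**  (1) For every depth `d ≥ 2` there are `c > 0`, `k₀`, `n₀` such that for all
`n ≥ n₀`, `k₀ ≤ k ≤ n / 2` and distinct `s, t` every circuit of depth `d` which separates the
undirected graphs in which the distance of `s` and `t` is at most `k` from those in which `s` and `t` are
not connected has at least `n ^ (c * min (k ^ (1 / ⌊d / 2⌋)) (log n))` gates.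
(2) For every `d ≥ 3` there are `c > 0`, `k₀`, `n₀` such that for all `n ≥ n₀`, `k ≥ k₀` and distinct
`s, t` every such circuit has at least `n ^ (c * min (k ^ (1 / (d - 2))) (n ^ c))` gates.
(3) For `d ≥ 2`, `1 ≤ k ≤ n`, `2 d ≤ n` some circuit of depth `d` with at most
`n ^ (k ^ (1 / ⌊d / 2⌋) + 4)` gates decides for all digraphs whether there is an `s`-`t` walk with at
most `k` arcs. -/
theorem result :
    (∀ d ≥ 2, ∃ c : ℝ, 0 < c ∧ ∃ k₀ n₀ : ℕ, ∀ n ≥ n₀, ∀ k : ℕ, k₀ ≤ k → 2 * k ≤ n →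
      ∀ s t : Fin n, s ≠ t → ∀ (S : ℕ) (f : Digraph n → Bool), Computes d S f →
        Separates k s t f →
          (n : ℝ) ^ (c * min ((k : ℝ) ^ (1 / ((d / 2 : ℕ) : ℝ))) (Real.log n)) ≤ S) ∧
    (∀ d ≥ 3, ∃ c : ℝ, 0 < c ∧ ∃ k₀ n₀ : ℕ, ∀ n ≥ n₀, ∀ k ≥ k₀, ∀ s t : Fin n, s ≠ t →
      ∀ (S : ℕ) (f : Digraph n → Bool), Computes d S f → Separates k s t f →
        (n : ℝ) ^ (c * min ((k : ℝ) ^ (1 / ((d : ℝ) - 2))) ((n : ℝ) ^ c)) ≤ S) ∧
    (∀ d ≥ 2, ∀ n k : ℕ, 2 * d ≤ n → 1 ≤ k → k ≤ n → ∀ s t : Fin n,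
      ∃ (S : ℕ) (f : Digraph n → Bool), Computes d S f ∧ Decides k s t f ∧
        (S : ℝ) ≤ (n : ℝ) ^ ((k : ℝ) ^ (1 / ((d / 2 : ℕ) : ℝ)) + 4)) := by
  refine ⟨?_, ?_, ?_⟩
  · intro d hd
    obtain ⟨c, hc, k₀, n₀, h⟩ := P28cd.lower_graph_sym (d / 2) (by omega)
    refine ⟨c, hc, k₀, n₀, ?_⟩
    intro n hn k hk h2k s t hst S f hf hor
    exact h n hn k hk h2k s t hst S f (hf.circ (by omega)) hor
  · intro d hd
    obtain ⟨D, rfl⟩ : ∃ D, d = D + 3 := ⟨d - 3, by omega⟩
    obtain ⟨c, hc, k₀, n₀, h⟩ := P28ng.lower_gen D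
    refine ⟨c, hc, k₀, n₀, ?_⟩
    intro n hn k hk s t hst S f hf hor
    have hex : ((D + 3 : ℕ) : ℝ) - 2 = (D : ℝ) + 1 := by
      push_cast
      ring
    rw [hex]
    exact h n hn k hk s t hst S f (hf.circ le_rfl) hor
  · intro d hd n k hn hk hkn s t
    obtain ⟨ℓ, hℓ, hkℓ, hS⟩ := P28cd.upper_numbers (d / 2) (by omega) n k (by omega) hk hkn
    obtain ⟨S, hS', f, hf, hdec⟩ := P28cd.upper_circuit n k (d / 2) ℓ (by omega) hℓ hkℓ s t
    refine ⟨S, f, computes_of_circ (by omega) hf, hdec, ?_⟩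
    exact le_trans (by exact_mod_cast hS') hS

end Pool.Agent.Results.MP_e46137_lc.ConstantDepth
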