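import Mathlib
import Pool.Agent.Lib.P28ip.Fin
import Pool.Agent.Lib.P28ip.Ipm
import Pool.Agent.Lib.P28ng.FinC
import Pool.Agent.Lib.P28ng.SepC
import Pool.Agent.Lib.P28cd.DetUp

/-!
# Constant depth circuits for reachability at out-degree one

For every constant depth `d ≥ 2` the least number of gates of circuits (AND and OR gates of arbitrary
fan-in, negations free, non-uniform) which decide for digraphs of out-degree at most one, or only for
disjoint unions of paths, whether there is a walk from `s` to `t` with at most `k` arcs is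
`n ^ Θ(k ^ (1 / (d - 1)))`, for all `k` up to `n ^ c`; the lower bound holds already for the
product of `k` permutations of `n` points.  At every constant depth `d ≥ 3` and for all `k` up to
`n ^ c` general reachability, even in undirected graphs, needs more than any fixed power of this.
-/

set_option autoImplicit false

namespace Pool.Agent.Results.MP_e46137_lc.OutDegreeOne

/-- the functions which may be wired into a gate of level `ℓ`: a literal, a gate of smaller level, the
negation of a gate of smaller level -/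
def IsInput {I : Type} (lits : Set (I → Bool)) {S : ℕ} (level : Fin S → ℕ)
    (gate : Fin S → I → Bool) (ℓ : ℕ) (h : I → Bool) : Prop :=
  h ∈ lits ∨ ∃ g, level g < ℓ ∧ (h = gate g ∨ h = fun x => !gate g x)

/-- `f` is computed by a circuit of depth `d` with `S` gates over the literals `lits`: every gate has a level
in `0, .., d - 1` and is the AND or the OR of a set of inputs (arbitrary fan-in), `f` is the value of
one of the gates -/
def Computes {I : Type} (lits : Set (I → Bool)) (d S : ℕ) (f : I → Bool) : Prop :=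
  ∃ (level : Fin S → ℕ) (gate : Fin S → I → Bool) (out : Fin S),
    (∀ g, level g < d) ∧
    (∀ g, ∃ T : Set (I → Bool), (∀ h ∈ T, IsInput lits level gate (level g) h) ∧
      ((∀ x, gate g x = true ↔ ∀ h ∈ T, h x = true) ∨
        (∀ x, gate g x = true ↔ ∃ h ∈ T, h x = true))) ∧
    f = gate out

/-- a digraph on `n` vertices: `E v w = true` iff there is an arc from `v` to `w` -/
abbrev Digraph (n : ℕ) : Type := Fin n → Fin n → Bool

/-- the literals of digraphs: an arc or its negation -/
def arcLits (n : ℕ) : Set (Digraph n → Bool) :=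
  {h | ∃ v w, (h = fun E => E v w) ∨ h = fun E => !E v w}

/-- `E` has a walk from `s` to `t` with at most `k` arcs -/
def Walk {n : ℕ} (E : Digraph n) (k : ℕ) (s t : Fin n) : Prop :=
  ∃ j ≤ k, ∃ p : ℕ → Fin n, p 0 = s ∧ p j = t ∧ ∀ i < j, E (p i) (p (i + 1)) = true

/-- out-degrees are at most one -/
def Functional {n : ℕ} (E : Digraph n) : Prop :=
  ∀ v w w', E v w = true → E v w' = true → w = w'

/-- `E` is a disjoint union of directed paths: out- and in-degrees are at most one and there is no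
cycle (there is a numbering of the vertices which increases along the arcs) -/
def Paths {n : ℕ} (E : Digraph n) : Prop :=
  Functional E ∧ (∀ v v' w, E v w = true → E v' w = true → v = v') ∧
    ∃ r : Fin n → ℕ, ∀ v w, E v w = true → r v < r w

/-- the undirected graph of `E` -/
def Und {n : ℕ} (E : Digraph n) : Digraph n := fun v w => E v w || E w v

/-- `f` accepts `E` if it has a walk from `s` to `t` with at most `k` arcs and rejects `E` if it has no walk
from `s` to `t` -/
def Correct {n : ℕ} (k : ℕ) (s t : Fin n) (f : Digraph n → Bool) (E : Digraph n) : Prop :=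
  (Walk E k s t → f E = true) ∧ ((∀ j, ¬ Walk E j s t) → f E = false)

/-- `f` is correct on the undirected graphs (loopless symmetric `E`) -/
def Separates {n : ℕ} (k : ℕ) (s t : Fin n) (f : Digraph n → Bool) : Prop :=
  ∀ E, (∀ v, E v v = false) → (∀ v w, E v w = E w v) → Correct k s t f E

/-- `f` decides for all digraphs of out-degree at most one whether there is a walk from `s` to `t`
with at most `k` arcs -/
def DecidesFunctional {n : ℕ} (k : ℕ) (s t : Fin n) (f : Digraph n → Bool) : Prop :=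
  ∀ E, Functional E → (f E = true ↔ Walk E k s t)

/-- `k` permutations of `n` points -/
abbrev Perms (k n : ℕ) : Type := Fin k → Equiv.Perm (Fin n)

/-- the literals of sequences of permutations: an entry of one of the permutation matrices or its
negation -/
def permLits (k n : ℕ) : Set (Perms k n → Bool) :=
  {h | ∃ j x y, (h = fun ω => decide (ω j x = y)) ∨ h = fun ω => !decide (ω j x = y)}

/-- the product of the permutations `ω` (`ω 0` is applied first) maps `x` to `y` -/
def Maps {k n : ℕ} (ω : Perms k n) (x y : Fin n) : Prop :=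
  ∃ p : ℕ → Fin n, p 0 = x ∧ p k = y ∧ ∀ i : Fin k, ω i (p i) = p (i + 1)

/-- **Theorem.**  (1) For every depth `d ≥ 2` there are `c > 0`, `k₀`, `n₀` such that for all
`n ≥ n₀`, `k ≥ k₀` and all `x, y` every circuit of depth `d` which decides for `k` permutations of `n`
points whether their product maps `x` to `y` has at least
`n ^ (c * min (k ^ (1 / (d - 1))) (n ^ c))` gates.
(2) For every depth `d ≥ 2` there are `c > 0`, `k₀`, `n₀` such that for all
`n ≥ n₀`, `k ≥ k₀` and distinct `s, t` every circuit of depth `d` which is correct on the disjoint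
unions of directed paths on `n` vertices, or is correct on their undirected graphs, has at least
`n ^ (c * min (k ^ (1 / (d - 1))) (n ^ c))` gates.
(3) For `d ≥ 2`, `1 ≤ k ≤ n`, `4 d ≤ n` some circuit of depth `d` with at most
`n ^ (k ^ (1 / (d - 1)) + 4)` gates decides for all digraphs of out-degree at most one whether there is
an `s`-`t` walk with at most `k` arcs.
(4) For every `d ≥ 3` and `A` there are `c > 0`, `k₀`, `n₀` such that for all `n ≥ n₀`,
`k₀ ≤ k ≤ n ^ c` and distinct `s, t` some circuit of depth `d` decides this for all digraphs of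
out-degree at most one, while all circuits of depth `d` which are correct on undirected graphs
have more than the `A`-th power of its number of gates. -/
theorem result :
    (∀ d ≥ 2, ∃ c : ℝ, 0 < c ∧ ∃ k₀ n₀ : ℕ, ∀ n ≥ n₀, ∀ k ≥ k₀, ∀ x y : Fin n,
      ∀ (S : ℕ) (f : Perms k n → Bool), Computes (permLits k n) d S f →
        (∀ ω, f ω = true ↔ Maps ω x y) →
          (n : ℝ) ^ (c * min ((k : ℝ) ^ (1 / ((d : ℝ) - 1))) ((n : ℝ) ^ c)) ≤ S) ∧
    (∀ d ≥ 2, ∃ c : ℝ, 0 < c ∧ ∃ k₀ n₀ : ℕ, ∀ n ≥ n₀, ∀ k ≥ k₀, ∀ s t : Fin n, s ≠ t →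
      ∀ (S : ℕ) (f : Digraph n → Bool), Computes (arcLits n) d S f →
        (∀ E, Paths E → Correct k s t f E) ∨ (∀ E, Paths E → Correct k s t f (Und E)) →
          (n : ℝ) ^ (c * min ((k : ℝ) ^ (1 / ((d : ℝ) - 1))) ((n : ℝ) ^ c)) ≤ S) ∧
    (∀ d ≥ 2, ∀ n k : ℕ, 4 * d ≤ n → 1 ≤ k → k ≤ n → ∀ s t : Fin n,
      ∃ (S : ℕ) (f : Digraph n → Bool), Computes (arcLits n) d S f ∧ DecidesFunctional k s t f ∧
        (S : ℝ) ≤ (n : ℝ) ^ ((k : ℝ) ^ (1 / ((d : ℝ) - 1)) + 4)) ∧
    (∀ d ≥ 3, ∀ A : ℕ, ∃ c : ℝ, 0 < c ∧ ∃ k₀ n₀ : ℕ, ∀ n ≥ n₀, ∀ k ≥ k₀,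
      (k : ℝ) ≤ (n : ℝ) ^ c → ∀ s t : Fin n, s ≠ t →
        ∃ (S₀ : ℕ) (f₀ : Digraph n → Bool), Computes (arcLits n) d S₀ f₀ ∧
          DecidesFunctional k s t f₀ ∧ ∀ (S : ℕ) (f : Digraph n → Bool),
            Computes (arcLits n) d S f → Separates k s t f → S₀ ^ A < S) := by
  have hex : ∀ D : ℕ, ((D + 2 : ℕ) : ℝ) - 1 = (D : ℝ) + 1 := by
    intro D
    push_cast
    ring
  have hup : ∀ d ≥ 2, ∀ n k : ℕ, 4 * d ≤ n → 1 ≤ k → k ≤ n → ∀ s t : Fin n,
      ∃ (S : ℕ) (f : Digraph n → Bool), Computes (arcLits n) d S f ∧ DecidesFunctional k s t f ∧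
        (S : ℝ) ≤ (n : ℝ) ^ ((k : ℝ) ^ (1 / ((d : ℝ) - 1)) + 4) := by
    intro d hd n k hn hk hkn s t
    obtain ⟨S, f, hf, hdec, hS⟩ := P28cd.det_upper d hd n k (by omega) hk hkn s t
    exact ⟨S, f, hf, hdec, hS⟩
  refine ⟨?_, ?_, hup, ?_⟩
  · intro d hd
    obtain ⟨D, rfl⟩ : ∃ D, d = D + 2 := ⟨d - 2, by omega⟩
    obtain ⟨c, hc, k₀, n₀, h⟩ := P28ip.lower_perm D
    refine ⟨c, hc, k₀, n₀, ?_⟩
    intro n hn k hk x y S f hf hor
    rw [hex]
    exact h n hn k hk x y S f hf hor
  · intro d hd
    obtain ⟨D, rfl⟩ : ∃ D, d = D + 2 := ⟨d - 2, by omega⟩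
    obtain ⟨c, hc, k₀, n₀, h⟩ := P28ip.lower_paths D
    refine ⟨c, hc, k₀, n₀, ?_⟩
    intro n hn k hk s t hst S f hf hor
    rw [hex]
    exact h n hn k hk s t hst S f hf hor
  · intro d hd A
    obtain ⟨D, rfl⟩ : ∃ D, d = D + 3 := ⟨d - 3, by omega⟩
    obtain ⟨c₁, hc₁, k₁, n₁, h⟩ := P28ng.lower_gen D
    obtain ⟨c, hc, k₀, n₀, hnum⟩ := P28ng.sep_numbers_full (D + 3) hd A c₁ hc₁
    have hex2 : ((D + 3 : ℕ) : ℝ) - 2 = (D : ℝ) + 1 := by
      push_cast
      ring
    refine ⟨min c 1, lt_min hc one_pos, max (max k₀ k₁) 1, max (max n₀ n₁) (4 * (D + 3)), ?_⟩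
    intro n hn k hk hkc s t hst
    have hn1 : (1 : ℝ) ≤ (n : ℝ) := by
      have : 1 ≤ n := by omega
      exact_mod_cast this
    have hkn : k ≤ n := by
      have h1 : (k : ℝ) ≤ (n : ℝ) ^ (1 : ℝ) :=
        hkc.trans (Real.rpow_le_rpow_of_exponent_le hn1 (min_le_right _ _))
      rw [Real.rpow_one] at h1
      exact_mod_cast h1
    obtain ⟨S₀, f₀, hf₀, hdec, hS₀⟩ := hup (D + 3) (by omega) n k (by omega) (by omega) hkn s t
    refine ⟨S₀, f₀, hf₀, hdec, ?_⟩
    intro S f hf hor
    refine hnum n (by omega) k (by omega)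
      (hkc.trans (Real.rpow_le_rpow_of_exponent_le hn1 (min_le_left _ _))) S₀ S hS₀ ?_
    rw [hex2]
    exact h n (by omega) k (by omega) s t hst S f hf hor

end Pool.Agent.Results.MP_e46137_lc.OutDegreeOne
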