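import Pool.Agent.Lib.Pe46137Q.Final2

/-!
Monotone logarithmic space differs from the intersection of monotone nondeterministic logarithmic
space and its complement class, reachability in planar digraphs is a witness, and up to
`(1 - ε) log N` negations do not help.

The definitions are in `Pool/Agent/Lib/Pe46137Q/Defs.lean` (the grid, `Computes`, `Reaches`,
`BySpan`, `PolySize`), `Pool/Agent/Lib/Pe46137/Defs.lean` and `PriceDefs.lean` (`SwitchingNetwork`,
`Connects`, `Avoids`, `Reachable`), `Pool/Agent/Lib/Pe46137P/Defs.lean` (`SpanProgram`)
and `Pool/Agent/Lib/NotG/Stmt.lean` (`Gate`, `depth`, `negCost`, `NFormula`, `Adaptive`, `ByNet`).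

`grid n`: the arcs of the oriented grid with the vertices `(i, j)`, `0 ≤ i, j ≤ n` (one step to the
right or one step up); there are `N = 2 n (n + 1)` of them.  The inputs are the subgraphs
`G ⊆ grid n`, given by one variable for every pair of vertices (true if the pair is an arc of `G`).
`Computes n f`: `f G` holds exactly if `G` has a directed walk from the lower left corner `(0, 0)` to
the upper right corner `(n, n)`, for every `G ⊆ grid n`.  `inside n p q m`: the arcs of the grid with
both ends in the `m × m` subsquare with lower left corner `(p, q)`; `square n p q m`: all pairs of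
vertices of this subsquare.

`SwitchingNetwork E W`: a graph on the finite set `W` of states whose contacts are permanently
closed or labelled by a variable or by a negated variable.  `N.Connects G Gᶜ`: source and sink are
joined by an undirected walk of contacts that are closed on the input `G`.  `Reaches N G Gᶜ`: they are
joined by a directed walk of such contacts (a nondeterministic branching program that may have
cycles).  `Avoids M`: no variable in `M` occurs negated.  `PolySize M`: undirected networks with a
polynomial number of states which avoid `M n` compute reachability in `grid n`, for all `n ≥ 2`.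

`NotG.Adaptive 𝓜 ks f`: `f` is computed by an adaptive program which asks `k` functions of the class
`𝓜` in parallel in each round, `ks` is the list of the numbers `k`, and answers with a function of the
class; `NotG.ByNet S`, `BySpan K S`: the functions computed by an undirected network with `S` states,
resp. a span program over `K` of dimension at most `S`, without negated variables.  `NotG.negCost c`:
the product of the numbers `k_j + 1`, `k_j` the number of NOT gates of level `j` of the circuit `c`
(the level is the largest number of NOT gates on a path that ends at the gate); `NotG.depth c`: the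
largest number of AND and OR gates on a path.
-/

namespace Pool.Agent.Results.MP_e46137_lc.PlanarReachability

open Pool.Agent.Lib.Pe46137 Pool.Agent.Lib.Pe46137P Pool.Agent.Lib.Pe46137Q

theorem result :
    (∃ C : ℝ, 0 < C ∧ ∀ n : ℕ, 2 ≤ n →
      -- (1) small directed networks without negated variables,
      (∃ N : SwitchingNetwork (Vtx n × Vtx n) (Fin ((n + 1) ^ 2)), N.Avoids Set.univ ∧
        Computes n (fun G => Reaches N G Gᶜ)) ∧
      -- and, for the negation, small directed networks without positive variables
      (∃ N : SwitchingNetwork (Vtx n × Vtx n) (Fin (n ^ 2 + 2)), (∀ e v w, ¬ N.pos e v w) ∧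
        Computes n (fun G => ¬ Reaches N G Gᶜ)) ∧
      -- (2) few negations do not help
      (∀ W : ℕ, 1 ≤ W → W ≤ 2 * n * (n + 1) →
        -- adaptive programs which ask undirected networks
        (∀ (ks : List ℕ) (S : ℕ) (f : Set (Vtx n × Vtx n) → Prop), (ks.map (· + 1)).prod ≤ W →
          NotG.Adaptive (NotG.ByNet S) ks f → Computes n f →
          (Real.logb 2 (2 * n * (n + 1) / W)) ^ 2 / 32 - C * Real.logb 2 n ≤ Real.logb 2 S) ∧
        -- adaptive programs which ask span programs over any field
        (∀ (K : Type) [Field K] (ks : List ℕ) (S : ℕ) (f : Set (Vtx n × Vtx n) → Prop),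
          (ks.map (· + 1)).prod ≤ W → NotG.Adaptive (BySpan K S) ks f → Computes n f →
          (Real.logb 2 (2 * n * (n + 1) / W)) ^ 2 / 32 - C * Real.logb 2 n ≤ Real.logb 2 S) ∧
        -- circuits with NOT gates
        (∀ c : List (NotG.Gate (Vtx n × Vtx n)), NotG.negCost c ≤ W →
          Computes n (fun G => NotG.Computes c G) →
          (Real.logb 2 (2 * n * (n + 1) / W)) ^ 2 / 32 - C * Real.logb 2 n ≤ NotG.depth c) ∧
        -- formulas with NOT gates
        (∀ φ : NotG.NFormula (Vtx n × Vtx n), 5 * φ.nots < W →
          Computes n (fun G => φ.Eval G) →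
          (Real.logb 2 (2 * n * (n + 1) / W)) ^ 2 / 32 - C * Real.logb 2 n ≤
            Real.logb 2 φ.leaves)) ∧
      -- (3) undirected networks: lower bound without the negations in a subsquare, and price
      (∀ m p q : ℕ, 2 ≤ m → p + m ≤ n → q + m ≤ n →
        ∀ (W : Type) [Fintype W] (N : SwitchingNetwork (Vtx n × Vtx n) W),
          Computes n (fun G => N.Connects G Gᶜ) →
          (N.Avoids (inside n p q m) →
            (Real.logb 2 m) ^ 2 / 8 - C * Real.logb 2 m ≤ Real.logb 2 (Fintype.card W)) ∧
          ∃ (W' : Type) (_ : Fintype W') (N' : SwitchingNetwork (Vtx n × Vtx n) W'),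
            N'.Avoids (square n p q m) ∧ Computes n (fun G => N'.Connects G Gᶜ) ∧
            Real.logb 2 (Fintype.card W') ≤ Real.logb 2 (Fintype.card W) +
              (Real.logb 2 m) ^ 2 / 2 + C * Real.logb 2 m)) ∧
    -- polynomial size: the number of negations of adaptive programs,
    (∀ c : ℕ, ∃ C : ℝ, ∀ n : ℕ, 2 ≤ n → ∀ (ks : List ℕ) (f : Set (Vtx n × Vtx n) → Prop),
      NotG.Adaptive (NotG.ByNet (n ^ c)) ks f → Computes n f →
      Real.logb 2 (2 * n * (n + 1)) - C * Real.sqrt (Real.logb 2 (2 * n * (n + 1))) ≤
        Real.logb 2 ((ks.map (· + 1)).prod : ℕ)) ∧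
    -- and the negated variables of networks
    (∀ p q m : ℕ → ℕ, (∀ n, 2 ≤ n → 2 ≤ m n ∧ p n + m n ≤ n ∧ q n + m n ≤ n) →
      ((PolySize fun n => inside n (p n) (q n) (m n)) ↔ (PolySize fun _ => ∅) ∧
        ∃ c : ℝ, ∀ n : ℕ, 2 ≤ n → (Real.logb 2 (m n)) ^ 2 ≤ c * Real.logb 2 n)) :=
  ⟨main2, nots_poly, polySize_iff⟩

end Pool.Agent.Results.MP_e46137_lc.PlanarReachability
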