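import Pool.Agent.Lib.MTN.Final

/-!
The exact exponent of monotone formulas and monotone switching networks for s-t reachability.

`mainTerm n ℓ = log ℓ * log n - (log ℓ) ^ 2 / 2`, `errTerm n ℓ = log n + log ℓ * log log n`
(logarithms to base two).  Monotone formula size and depth (also on undirected graphs) and the
number of states of monotone switching networks for reachability by walks of at most `ℓ` arcs are
determined up to the error term in the exponent, for every length `ℓ ≤ n`; the lower bound holds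
also for probabilistic formulas and networks with an arbitrary gap and on average (a random path
against a random cut).
-/

namespace Pool.Agent.Results.MP_e46137_lc.SavitchConstant

open Pool.Agent.Lib.Pe46137 Pool.Agent.Lib.Pe46137X MonSize

theorem result : ∃ C : ℝ, 0 < C ∧ ∀ (n : ℕ) (s t : Fin n), s ≠ t → ∀ ℓ : ℕ, 1 ≤ ℓ → ℓ ≤ n →
    (|Real.logb 2 (formulaSize s t ℓ) - mainTerm n ℓ| ≤ C * errTerm n ℓ ∧
      |(formulaDepth s t ℓ : ℝ) - mainTerm n ℓ| ≤ C * errTerm n ℓ ∧
      |Real.logb 2 (uFormulaSize s t ℓ) - mainTerm n ℓ| ≤ C * errTerm n ℓ ∧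
      |(uFormulaDepth s t ℓ : ℝ) - mainTerm n ℓ| ≤ C * errTerm n ℓ ∧
      |Real.logb 2 (networkStates s t ℓ) - mainTerm n ℓ| ≤ C * errTerm n ℓ) ∧
    (∀ (m : ℕ) (Ω : Type) [Fintype Ω] (p : Ω → ℝ), (∀ ω, 0 ≤ p ω) → ∑ ω, p ω = 1 →
      ∀ (f : Ω → Set (Fin n × Fin n) → Prop) (δ : ℝ), 0 < δ →
        ((∀ ω, ByFormula n m (f ω)) ∧ GapOn Undirected p f s t ℓ δ ∨
          (∀ ω, ByNetwork n m (f ω)) ∧ GapOn (fun _ => True) p f s t ℓ δ) →
        mainTerm n ℓ - C * errTerm n ℓ ≤ Real.logb 2 (m / δ)) ∧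
    (C * Real.logb 2 n ^ 9 * ℓ ≤ n → ∀ (m : ℕ) (f : Set (Fin n × Fin n) → Prop),
      (ByFormula n m f → adv f ℓ s t (pathEdges s t) cutEdges ≤
        m * (2 : ℝ) ^ (-(mainTerm n ℓ - C * errTerm n ℓ))) ∧
      (ByNetwork n m f → adv f ℓ s t (pathArcs s t) cutArcs ≤
        m * (2 : ℝ) ^ (-(mainTerm n ℓ - C * errTerm n ℓ)))) :=
  MTN.final

end Pool.Agent.Results.MP_e46137_lc.SavitchConstant
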